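import Pool.Agent.H90.STK.Stmts

/-!
# Entropy of a controlled variable
-/

set_option autoImplicit false

namespace Pool.STK

open Pool.Agent.H49.Ent Pool.Agent.H32.Dense

theorem cth_thm (hPR2 : PR2Stmt) : CTHStmt := by
  intro Ω Ω' G _ _ _ p q x B C hp hq hC
  obtain ⟨h1, h2, h3, h4⟩ := hPR2 Ω Ω' G G p q hp hq
  have e1 := hC 1
  simp only [one_smul, Int.cast_one, abs_one, one_mul] at e1
  have e2 := h4 x B
  have e3 : H (pr2 p q) (fun w => (x w.1, B w.2)) ≤
      H (pr2 p q) (fun w => x w.1) + H (pr2 p q) (fun w => x w.1 + B w.2) := by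
    refine subadd h1.nonneg h1.sum_one ?_
    intro w w' _ _ h
    simp only [Prod.mk.injEq] at h ⊢
    refine ⟨h.1, ?_⟩
    have := h.2
    rw [h.1] at this
    exact add_left_cancel this
  have e4 : H (pr2 p q) (fun w => x w.1) = H p x := h2.H x
  linarith

end Pool.STK
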