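import Pool.Agent.H90.STK.StmtsT
import Pool.Agent.H53.Kak.Dual

/-!
# The number of separated directions
-/

set_option autoImplicit false

namespace Pool.STK

open Pool.Agent.H53.Kak (E)

theorem tcd_thm : TCDStmt := by
  intro d
  refine ⟨Pool.Agent.H53.Kak.CG d * 3 ^ d, ?_, ?_⟩
  · have := Pool.Agent.H53.Kak.CG_pos d
    positivity
  · intro δ hδ hδ1 ι _ e he hsep
    have hF : Pool.Agent.H53.Kak.Fam δ e (Finset.univ : Finset ι) :=
      ⟨fun i _ => he i, fun i _ j _ h => hsep i j h⟩
    have h := Pool.Agent.H53.Kak.card_le_all hδ hδ1 hF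
    simpa using h

end Pool.STK
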